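import Mathlib

set_option autoImplicit false
open Classical
open Finset

namespace Run7.h83.TG

/-- ordered pairs `i < j` -/
abbrev Pr (n : ℕ) := {e : Fin n × Fin n // e.1 < e.2}

theorem prod_prod_eq {n : ℕ} (F : Fin n → Fin n → ℝ) :
    (∏ i : Fin n, ∏ j : Fin n, (if i < j then F i j else 1)) = ∏ e : Pr n, F e.1.1 e.1.2 := by
  have h := Fintype.prod_prod_type' (fun i j : Fin n => if i < j then F i j else (1 : ℝ))
  rw [← h, ← Finset.prod_filter (s := (Finset.univ : Finset (Fin n × Fin n)))
    (p := fun e => e.1 < e.2) (f := fun e => F e.1 e.2)]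
  exact Finset.prod_subtype (Finset.univ.filter (fun e : Fin n × Fin n => e.1 < e.2))
    (by simp) (fun e => F e.1 e.2)

theorem sum_graph_prod_le {n : ℕ} (u v : Pr n → ℝ) (hu : ∀ e, 0 ≤ u e) (hv : ∀ e, 0 ≤ v e) :
    (∑ G : SimpleGraph (Fin n), ∏ e : Pr n, (if G.Adj e.1.1 e.1.2 then u e else v e)) ≤
      ∏ e : Pr n, (u e + v e) := by
  have h1 : ∏ e : Pr n, (u e + v e) =
      ∑ f : Pr n → Bool, ∏ e : Pr n, (if f e then u e else v e) := by
    have h2 := Finset.prod_univ_sum (fun _ : Pr n => (Finset.univ : Finset Bool))
      (fun e b => if b then u e else v e)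
    simp only [Fintype.piFinset_univ] at h2
    rw [← h2]
    apply Finset.prod_congr rfl
    intro e _
    simp
  rw [h1]
  let φ : SimpleGraph (Fin n) → (Pr n → Bool) := fun G e => decide (G.Adj e.1.1 e.1.2)
  have hφ : Function.Injective φ := by
    intro G H h
    ext i j
    have hpair : ∀ (i j : Fin n) (hij : i < j), G.Adj i j ↔ H.Adj i j := by
      intro i j hij
      have := congrFun h ⟨(i, j), hij⟩
      simpa [φ] using this
    rcases lt_trichotomy i j with hij | hij | hij
    · exact hpair i j hij
    · subst hij; simp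
    · rw [G.adj_comm, H.adj_comm]; exact hpair j i hij
  calc (∑ G : SimpleGraph (Fin n), ∏ e : Pr n, (if G.Adj e.1.1 e.1.2 then u e else v e))
      = ∑ G : SimpleGraph (Fin n), ∏ e : Pr n, (if φ G e then u e else v e) := by
        apply Finset.sum_congr rfl
        intro G _
        apply Finset.prod_congr rfl
        intro e _
        simp [φ]
    _ = ∑ f ∈ (Finset.univ : Finset (SimpleGraph (Fin n))).image φ,
          ∏ e : Pr n, (if f e then u e else v e) := by
        rw [Finset.sum_image]
        intro a _ b _ hab
        exact hφ hab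
    _ ≤ ∑ f : Pr n → Bool, ∏ e : Pr n, (if f e then u e else v e) := by
        apply Finset.sum_le_sum_of_subset_of_nonneg (Finset.subset_univ _)
        intro f _ _
        apply Finset.prod_nonneg
        intro e _
        split_ifs
        · exact hu e
        · exact hv e

end Run7.h83.TG
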