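import Mathlib

set_option autoImplicit false
open Finset

namespace Run7.h83.TG

/-- one sided exponential moment -/
theorem exp_moment {n : ℕ} (y : Fin n → ℝ) (l : ℝ)
    (hl : l ≤ 1) (hy : ∀ k, |y k| ≤ l) (hs : ∑ k, y k = 0) :
    ∑ k, Real.exp (y k) ≤ (n : ℝ) * Real.exp (l ^ 2) := by
  have h1 : ∀ k, Real.exp (y k) ≤ 1 + y k + l ^ 2 := by
    intro k
    have hk1 : |y k| ≤ 1 := (hy k).trans hl
    have h2 := Real.abs_exp_sub_one_sub_id_le hk1
    have h3 := (abs_le.mp h2).2
    have h4 : (y k) ^ 2 ≤ l ^ 2 := by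
      rw [← sq_abs (y k)]
      exact pow_le_pow_left₀ (abs_nonneg _) (hy k) 2
    linarith
  calc ∑ k, Real.exp (y k) ≤ ∑ k, (1 + y k + l ^ 2) := Finset.sum_le_sum (fun k _ => h1 k)
    _ = (n : ℝ) * (1 + l ^ 2) := by
      rw [Finset.sum_add_distrib, Finset.sum_add_distrib, hs]
      simp
      ring
    _ ≤ (n : ℝ) * Real.exp (l ^ 2) := by
      apply mul_le_mul_of_nonneg_left _ (Nat.cast_nonneg _)
      have := Real.add_one_le_exp (l ^ 2)
      linarith

theorem sum_exp_pow {n s : ℕ} (y : Fin n → ℝ) :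
    ∑ K : Fin s → Fin n, Real.exp (∑ t, y (K t)) = (∑ k, Real.exp (y k)) ^ s := by
  have h : ∀ K : Fin s → Fin n, Real.exp (∑ t, y (K t)) = ∏ t, Real.exp (y (K t)) := by
    intro K
    rw [Real.exp_sum]
  simp_rw [h]
  have h2 := Finset.prod_univ_sum (fun _ : Fin s => (Finset.univ : Finset (Fin n)))
    (fun _ k => Real.exp (y k))
  simp only [Finset.prod_const, Finset.card_univ, Fintype.card_fin, Fintype.piFinset_univ] at h2
  rw [h2]

/-- Sampling lemma: one tuple of `s` sample points estimates all means at once. -/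
theorem sampling {P : Type*} [Fintype P] {n s : ℕ} (hn : 0 < n) (hs : 0 < s)
    (x : P → Fin n → ℝ) (hx0 : ∀ p k, 0 ≤ x p k) (hx1 : ∀ p k, x p k ≤ 1)
    (l : ℝ) (hl0 : 0 < l) (hl : l ≤ 1) :
    ∃ K : Fin s → Fin n, ∀ p,
      |(∑ t, x p (K t)) / s - (∑ k, x p k) / n| ≤
        Real.log (2 * Fintype.card P) / (l * s) + l := by
  classical
  have hnR : (0 : ℝ) < n := by exact_mod_cast hn
  have hsR : (0 : ℝ) < s := by exact_mod_cast hs
  set μ : P → ℝ := fun p => (∑ k, x p k) / n with hμ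
  have hμ0 : ∀ p, 0 ≤ μ p := fun p => div_nonneg (Finset.sum_nonneg fun k _ => hx0 p k) hnR.le
  have hμ1 : ∀ p, μ p ≤ 1 := by
    intro p
    rw [hμ]
    rw [div_le_one hnR]
    calc ∑ k, x p k ≤ ∑ _k : Fin n, (1 : ℝ) := Finset.sum_le_sum fun k _ => hx1 p k
      _ = n := by simp
  -- signed deviations
  let y : P → Bool → Fin n → ℝ := fun p b k => (if b then l else -l) * (x p k - μ p)
  have hyabs : ∀ p b k, |y p b k| ≤ l := by
    intro p b k
    have h1 : |x p k - μ p| ≤ 1 := by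
      rw [abs_le]; constructor <;> linarith [hx0 p k, hx1 p k, hμ0 p, hμ1 p]
    have h2 : |(if b then l else -l)| = l := by
      cases b <;> simp [abs_of_pos hl0]
    simp only [y]
    rw [abs_mul, h2]
    calc l * |x p k - μ p| ≤ l * 1 := mul_le_mul_of_nonneg_left h1 hl0.le
      _ = l := mul_one l
  have hysum : ∀ p b, ∑ k, y p b k = 0 := by
    intro p b
    simp only [y]
    rw [← Finset.mul_sum, Finset.sum_sub_distrib]
    have : ∑ _k : Fin n, μ p = ∑ k, x p k := by
      simp [hμ]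
      field_simp
    rw [this]; ring
  have hM : ∀ p b, ∑ K : Fin s → Fin n, Real.exp (∑ t, y p b (K t)) ≤
      (n : ℝ) ^ s * Real.exp (l ^ 2) ^ s := by
    intro p b
    rw [sum_exp_pow, ← mul_pow]
    apply pow_le_pow_left₀ (Finset.sum_nonneg fun k _ => (Real.exp_pos _).le)
    exact exp_moment (y p b) l hl (hyabs p b) (hysum p b)
  -- total
  have hT : ∑ K : Fin s → Fin n, ∑ q : P × Bool, Real.exp (∑ t, y q.1 q.2 (K t)) ≤
      ∑ _K : Fin s → Fin n, (2 * Fintype.card P : ℝ) * Real.exp (l ^ 2) ^ s := by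
    rw [Finset.sum_comm]
    calc ∑ q : P × Bool, ∑ K : Fin s → Fin n, Real.exp (∑ t, y q.1 q.2 (K t))
        ≤ ∑ _q : P × Bool, (n : ℝ) ^ s * Real.exp (l ^ 2) ^ s :=
          Finset.sum_le_sum fun q _ => hM q.1 q.2
      _ = ∑ _K : Fin s → Fin n, (2 * Fintype.card P : ℝ) * Real.exp (l ^ 2) ^ s := by
          simp
          ring
  have : Nonempty (Fin n) := ⟨⟨0, hn⟩⟩
  obtain ⟨K, -, hK⟩ := Finset.exists_le_of_sum_le (Finset.univ_nonempty) hT
  refine ⟨K, fun p => ?_⟩
  have hterm : ∀ b, (∑ t, y p b (K t)) ≤ Real.log (2 * Fintype.card P) + s * l ^ 2 := by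
    intro b
    have h1 : Real.exp (∑ t, y p b (K t)) ≤ (2 * Fintype.card P : ℝ) * Real.exp (l ^ 2) ^ s := by
      refine le_trans ?_ hK
      exact Finset.single_le_sum (f := fun q : P × Bool => Real.exp (∑ t, y q.1 q.2 (K t)))
        (fun q _ => (Real.exp_pos _).le) (Finset.mem_univ (p, b))
    have hP : (0 : ℝ) < 2 * Fintype.card P := by
      have : 0 < Fintype.card P := Fintype.card_pos_iff.mpr ⟨p⟩
      positivity
    have h2 := Real.log_le_log (Real.exp_pos _) h1
    rw [Real.log_exp, Real.log_mul hP.ne' (pow_ne_zero _ (Real.exp_pos _).ne'), Real.log_pow,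
      Real.log_exp] at h2
    exact h2
  have hkey : ∀ b : Bool, (∑ t, y p b (K t)) =
      (if b then l else -l) * (s * ((∑ t, x p (K t)) / s - μ p)) := by
    intro b
    simp only [y]
    rw [← Finset.mul_sum, Finset.sum_sub_distrib]
    congr 1
    simp
    field_simp
  have ht := hterm true
  have hf := hterm false
  rw [hkey] at ht hf
  simp only [if_true, Bool.false_eq_true, if_false] at ht hf
  set D := (∑ t, x p (K t)) / s - μ p with hD
  have hls : 0 < l * s := mul_pos hl0 hsR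
  rw [abs_le]
  have e1 : Real.log (2 * Fintype.card P) / (l * s) + l =
      (Real.log (2 * Fintype.card P) + s * l ^ 2) / (l * s) := by
    field_simp
  rw [e1]
  constructor
  · rw [neg_le, le_div_iff₀ hls]
    nlinarith
  · rw [le_div_iff₀ hls]
    nlinarith

end Run7.h83.TG
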