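import Mathlib
import Pool.Agent.Run7.h83.TG.Sample
import Pool.Agent.Run7.h83.TG.Prod

set_option autoImplicit false
open Classical
open Finset

namespace Run7.h83.TG

/-- the factor of the problem -/
noncomputable def phi {n : ℕ} (G : SimpleGraph (Fin n)) (i j : Fin n) : ℝ :=
  (((Finset.univ.filter (fun k : Fin n => k ≠ i ∧ k ≠ j ∧
                Even ((if G.Adj i j then 1 else 0) + (if G.Adj i k then 1 else 0)
                  + (if G.Adj j k then 1 else 0) : ℕ))).card : ℝ) / ((n : ℝ) - 2))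

noncomputable def xx {n : ℕ} (G : SimpleGraph (Fin n)) (e : Pr n) (k : Fin n) : ℝ :=
  if (G.Adj e.1.1 k ↔ G.Adj e.1.2 k) then 0 else 1

theorem frac_le {n : ℕ} (hn : 3 ≤ n) (N : ℝ) (h1 : N ≤ n - 2) :
    N / ((n : ℝ) - 2) ≤ N / n + 2 / n := by
  have hnR : (3 : ℝ) ≤ n := by exact_mod_cast hn
  rw [← add_div, div_le_div_iff₀ (by linarith) (by linarith)]
  nlinarith

theorem card_le {n : ℕ} (hn : 3 ≤ n) (i j : Fin n) (hij : i ≠ j) (P : Fin n → Prop)
    [DecidablePred (fun k : Fin n => k ≠ i ∧ k ≠ j ∧ P k)] :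
    ((Finset.univ.filter (fun k : Fin n => k ≠ i ∧ k ≠ j ∧ P k)).card : ℝ) ≤ (n : ℝ) - 2 := by
  have h : (Finset.univ.filter (fun k : Fin n => k ≠ i ∧ k ≠ j ∧ P k)) ⊆
      (Finset.univ \ {i, j} : Finset (Fin n)) := by
    intro k hk
    simp at hk ⊢
    exact ⟨hk.1, hk.2.1⟩
  have h2 := Finset.card_le_card h
  rw [Finset.card_sdiff_of_subset (Finset.subset_univ _), Finset.card_pair hij] at h2
  simp only [Finset.card_univ, Fintype.card_fin] at h2
  have h3 : (((n - 2 : ℕ) : ℕ) : ℝ) = (n : ℝ) - 2 := by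
    rw [Nat.cast_sub (by omega)]; norm_num
  rw [← h3]
  exact_mod_cast h2

theorem phi_le_adj {n : ℕ} (hn : 3 ≤ n) (G : SimpleGraph (Fin n)) (e : Pr n)
    (h : G.Adj e.1.1 e.1.2) :
    phi G e.1.1 e.1.2 ≤ (∑ k, xx G e k) / n + 2 / n := by
  have hnR : (3 : ℝ) ≤ n := by exact_mod_cast hn
  unfold phi
  have hc : ((Finset.univ.filter (fun k : Fin n => k ≠ e.1.1 ∧ k ≠ e.1.2 ∧
                Even ((if G.Adj e.1.1 e.1.2 then 1 else 0) + (if G.Adj e.1.1 k then 1 else 0)
                  + (if G.Adj e.1.2 k then 1 else 0) : ℕ))).card : ℝ) ≤ (n : ℝ) - 2 :=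
    card_le hn e.1.1 e.1.2 e.2.ne (fun k : Fin n =>
    Even ((if G.Adj e.1.1 e.1.2 then 1 else 0) + (if G.Adj e.1.1 k then 1 else 0)
                  + (if G.Adj e.1.2 k then 1 else 0) : ℕ))
  refine (frac_le hn _ hc).trans ?_
  apply add_le_add_left
  apply div_le_div_of_nonneg_right _ (by linarith)
  rw [Finset.card_filter]
  push_cast
  apply Finset.sum_le_sum
  intro k _
  unfold xx
  have hE3 : ¬ Even (3 : ℕ) := by decide
  have hE1 : ¬ Even (1 : ℕ) := by decide
  by_cases h1 : G.Adj e.1.1 k <;> by_cases h2 : G.Adj e.1.2 k <;>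
    simp only [h, h1, h2, if_true, if_false] <;> split_ifs <;> simp_all

theorem phi_le_not {n : ℕ} (hn : 3 ≤ n) (G : SimpleGraph (Fin n)) (e : Pr n)
    (h : ¬ G.Adj e.1.1 e.1.2) :
    phi G e.1.1 e.1.2 ≤ 1 - (∑ k, xx G e k) / n + 2 / n := by
  have hnR : (3 : ℝ) ≤ n := by exact_mod_cast hn
  unfold phi
  have hc : ((Finset.univ.filter (fun k : Fin n => k ≠ e.1.1 ∧ k ≠ e.1.2 ∧
                Even ((if G.Adj e.1.1 e.1.2 then 1 else 0) + (if G.Adj e.1.1 k then 1 else 0)
                  + (if G.Adj e.1.2 k then 1 else 0) : ℕ))).card : ℝ) ≤ (n : ℝ) - 2 :=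
    card_le hn e.1.1 e.1.2 e.2.ne (fun k : Fin n =>
    Even ((if G.Adj e.1.1 e.1.2 then 1 else 0) + (if G.Adj e.1.1 k then 1 else 0)
                  + (if G.Adj e.1.2 k then 1 else 0) : ℕ))
  refine (frac_le hn _ hc).trans ?_
  have h0 : (1 : ℝ) - (∑ k, xx G e k) / n = (∑ k, (1 - xx G e k)) / n := by
    rw [Finset.sum_sub_distrib]
    simp
    field_simp
  rw [h0]
  apply add_le_add_left
  apply div_le_div_of_nonneg_right _ (by linarith)
  rw [Finset.card_filter]
  push_cast
  apply Finset.sum_le_sum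
  intro k _
  unfold xx
  have hE3 : ¬ Even (3 : ℕ) := by decide
  have hE1 : ¬ Even (1 : ℕ) := by decide
  by_cases h1 : G.Adj e.1.1 k <;> by_cases h2 : G.Adj e.1.2 k <;>
    simp only [h, h1, h2, if_true, if_false] <;> split_ifs <;> simp_all

/-- the estimate -/
theorem main_bound {n s : ℕ} (hn : 3 ≤ n) (hs : 0 < s) (l : ℝ) (hl0 : 0 < l) (hl : l ≤ 1)
    (d : ℝ) (hd : Real.log (2 * Fintype.card (Pr n)) / (l * s) + l + 2 / n ≤ d) :
    (∑ G : SimpleGraph (Fin n),
        ∏ i : Fin n, ∏ j : Fin n, (if i < j then phi G i j else 1)) ≤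
      (2 : ℝ) ^ (n * s) * (1 + 2 * d) ^ (n ^ 2) := by
  have hnR : (3 : ℝ) ≤ n := by exact_mod_cast hn
  have hsR : (0 : ℝ) < s := by exact_mod_cast hs
  have hn0 : 0 < n := by omega
  have hcardR : (0:ℝ) ≤ Real.log (2 * Fintype.card (Pr n)) / (l * s) := by
    apply div_nonneg _ (mul_pos hl0 hsR).le
    have : 0 < Fintype.card (Pr n) := by
      rw [Fintype.card_pos_iff]
      exact ⟨⟨(⟨0, by omega⟩, ⟨1, by omega⟩), by simp [Fin.lt_def]⟩⟩
    apply Real.log_nonneg
    have h1 : (1 : ℝ) ≤ Fintype.card (Pr n) := by exact_mod_cast this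
    linarith
  have hd0 : 0 ≤ d := by
    have : (0:ℝ) ≤ 2 / n := by positivity
    linarith
  -- the p from B
  let p : (Fin n → Fin s → Bool) → Pr n → ℝ := fun B e =>
    (∑ t, (if B e.1.1 t = B e.1.2 t then (0 : ℝ) else 1)) / s
  have hp0 : ∀ B e, 0 ≤ p B e := by
    intro B e
    apply div_nonneg _ hsR.le
    apply Finset.sum_nonneg
    intro t _
    split_ifs <;> norm_num
  have hp1 : ∀ B e, p B e ≤ 1 := by
    intro B e
    rw [div_le_one hsR]
    calc (∑ t : Fin s, (if B e.1.1 t = B e.1.2 t then (0 : ℝ) else 1)) ≤ ∑ _t : Fin s, (1 : ℝ) := by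
          apply Finset.sum_le_sum
          intro t _
          split_ifs <;> norm_num
      _ = s := by simp
  have hterm : ∀ G : SimpleGraph (Fin n),
      (∏ i : Fin n, ∏ j : Fin n, (if i < j then phi G i j else 1)) ≤
        ∑ B : Fin n → Fin s → Bool,
          ∏ e : Pr n, (if G.Adj e.1.1 e.1.2 then p B e + d else (1 - p B e) + d) := by
    intro G
    rw [prod_prod_eq]
    obtain ⟨K, hK⟩ := sampling (P := Pr n) hn0 hs (xx G)
      (fun e k => by unfold xx; split_ifs <;> norm_num)
      (fun e k => by unfold xx; split_ifs <;> norm_num) l hl0 hl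
    let B : Fin n → Fin s → Bool := fun i t => decide (G.Adj i (K t))
    have hpB : ∀ e, p B e = (∑ t, xx G e (K t)) / s := by
      intro e
      simp only [p, B, xx]
      congr 1
      apply Finset.sum_congr rfl
      intro t _
      by_cases h1 : G.Adj e.1.1 (K t) <;> by_cases h2 : G.Adj e.1.2 (K t) <;> simp [h1, h2]
    have hB : ∏ e : Pr n, phi G e.1.1 e.1.2 ≤
        ∏ e : Pr n, (if G.Adj e.1.1 e.1.2 then p B e + d else (1 - p B e) + d) := by
      apply Finset.prod_le_prod
      · intro e _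
        unfold phi
        apply div_nonneg (Nat.cast_nonneg _)
        linarith
      · intro e _
        have h1 := abs_le.mp (hK e)
        rw [← hpB] at h1
        split_ifs with h
        · have h2 := phi_le_adj hn G e h
          linarith
        · have h2 := phi_le_not hn G e h
          linarith
    refine hB.trans ?_
    refine Finset.single_le_sum (f := fun B : Fin n → Fin s → Bool =>
      ∏ e : Pr n, (if G.Adj e.1.1 e.1.2 then p B e + d else (1 - p B e) + d)) ?_
      (Finset.mem_univ B)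
    intro B' _
    apply Finset.prod_nonneg
    intro e _
    have := hp0 B' e
    have := hp1 B' e
    split_ifs <;> linarith
  calc (∑ G : SimpleGraph (Fin n),
        ∏ i : Fin n, ∏ j : Fin n, (if i < j then phi G i j else 1))
      ≤ ∑ G : SimpleGraph (Fin n), ∑ B : Fin n → Fin s → Bool,
          ∏ e : Pr n, (if G.Adj e.1.1 e.1.2 then p B e + d else (1 - p B e) + d) :=
        Finset.sum_le_sum fun G _ => hterm G
    _ = ∑ B : Fin n → Fin s → Bool, ∑ G : SimpleGraph (Fin n),
          ∏ e : Pr n, (if G.Adj e.1.1 e.1.2 then p B e + d else (1 - p B e) + d) :=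
        Finset.sum_comm
    _ ≤ ∑ _B : Fin n → Fin s → Bool, (1 + 2 * d) ^ (n ^ 2) := by
        apply Finset.sum_le_sum
        intro B _
        refine (sum_graph_prod_le _ _ (fun e => ?_) (fun e => ?_)).trans ?_
        · have := hp0 B e; linarith
        · have := hp1 B e; linarith
        · have h1 : ∀ e : Pr n, p B e + d + (1 - p B e + d) = 1 + 2 * d := by
            intro e; ring
          rw [Finset.prod_congr rfl (fun e _ => h1 e), Finset.prod_const]
          apply pow_le_pow_right₀ (by linarith)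
          have h2 := Fintype.card_subtype_le (fun e : Fin n × Fin n => e.1 < e.2)
          rw [Fintype.card_prod, Fintype.card_fin] at h2
          rw [Finset.card_univ, sq]
          exact h2
    _ = (2 : ℝ) ^ (n * s) * (1 + 2 * d) ^ (n ^ 2) := by
        simp
        left
        rw [← pow_mul, mul_comm]

end Run7.h83.TG
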